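import Pool.Agent.Helper15.GS.GoalsD
import Pool.Agent.Helper56.HS.DBZ

/-! # Packet GDZ: weighted convergence of `∂̄Y` and of the curvature -/

open Complex Metric Set Filter Topology MeasureTheory
open scoped ContDiff ComplexConjugate ComplexOrder Manifold Matrix

namespace Pool.Agent.Helper94.GS

open Pool.Agent.Helper95.Lin Pool.Agent.Helper16.Abund Pool.Agent.Helper92.Orb
  Pool.Agent.Helper10.SP Pool.Agent.Helper95.RK Pool.Agent.Helper57.HS
  Pool.Agent.Helper15.HS Pool.Agent.Helper15.GS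
open Pool.Agent.Helper56.HS.DBZ (contM cont_det cont_inv cont_trace trace_nonneg ptw)

universe u v

/-! ## Linear algebra -/

section linalg

variable {n : ℕ}

theorem entry_sqrt {M : Matrix (Fin n) (Fin n) ℂ} (hM : M.PosSemidef) (i j : Fin n) :
    ‖M i j‖ ≤ √(M i i).re * √(M j j).re := by
  have hd : ∀ i, 0 ≤ (M i i).re ∧ (M i i).im = 0 := by
    intro i
    have h1 : 0 ≤ M i i := hM.diag_nonneg
    rw [Complex.nonneg_iff] at h1
    exact ⟨h1.1, h1.2.symm⟩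
  have h3 := (hM.submatrix ![i, j]).det_nonneg
  rw [Matrix.det_fin_two] at h3
  simp only [Matrix.submatrix_apply, Matrix.cons_val_zero, Matrix.cons_val_one] at h3
  have h4 : M j i = conj (M i j) := (hM.isHermitian.apply j i).symm
  have h5 : M i j * M j i = ((‖M i j‖ ^ 2 : ℝ) : ℂ) := by
    rw [h4, Complex.mul_conj, Complex.normSq_eq_norm_sq]
  rw [h5] at h3
  rw [Complex.nonneg_iff] at h3
  have h6 := h3.1
  rw [Complex.sub_re, Complex.mul_re, (hd i).2, zero_mul, sub_zero, Complex.ofReal_re] at h6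
  rw [← Real.sqrt_mul (hd i).1]
  exact Real.le_sqrt_of_sq_le (by linarith)

theorem smul_one_herm (c : ℝ) :
    ((c : ℂ) • (1 : Matrix (Fin n) (Fin n) ℂ)).IsHermitian := by
  rw [Matrix.IsHermitian, Matrix.conjTranspose_smul, Matrix.conjTranspose_one]
  simp

theorem psd_trace {M : Matrix (Fin n) (Fin n) ℂ} (hM : M.PosSemidef) :
    ((M.trace.re : ℂ) • (1 : Matrix (Fin n) (Fin n) ℂ) - M).PosSemidef := by
  have hH : ((M.trace.re : ℂ) • (1 : Matrix (Fin n) (Fin n) ℂ) - M).IsHermitian :=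
    (smul_one_herm _).sub hM.isHermitian
  have hd : ∀ i, 0 ≤ (M i i).re := by
    intro i
    have h1 : 0 ≤ M i i := hM.diag_nonneg
    exact (Complex.nonneg_iff.1 h1).1
  refine Matrix.PosSemidef.of_dotProduct_mulVec_nonneg hH fun x => ?_
  rw [Complex.nonneg_iff]
  refine ⟨?_, (hH.im_star_dotProduct_mulVec_self x).symm⟩
  have e1 : star x ⬝ᵥ (((M.trace.re : ℂ) • (1 : Matrix (Fin n) (Fin n) ℂ) - M) *ᵥ x) =
      ((M.trace.re * ∑ i, ‖x i‖ ^ 2 : ℝ) : ℂ) - star x ⬝ᵥ (M *ᵥ x) := by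
    rw [Matrix.sub_mulVec, dotProduct_sub, Matrix.smul_mulVec, Matrix.one_mulVec]
    congr 1
    rw [dotProduct_smul, smul_eq_mul]
    push_cast
    congr 1
    rw [dotProduct]
    refine Finset.sum_congr rfl fun i _ => ?_
    rw [Pi.star_apply, ← Complex.ofReal_pow, ← Complex.normSq_eq_norm_sq,
      Complex.normSq_eq_conj_mul_self]
    rfl
  have e2 : ‖star x ⬝ᵥ (M *ᵥ x)‖ ≤ (∑ i, √(M i i).re * ‖x i‖) ^ 2 := by
    rw [dotProduct]
    refine (norm_sum_le _ _).trans ?_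
    have h1 : ∀ i ∈ (Finset.univ : Finset (Fin n)), ‖star x i * (M *ᵥ x) i‖ ≤
        (√(M i i).re * ‖x i‖) * ∑ j, √(M j j).re * ‖x j‖ := by
      intro i _
      rw [norm_mul, Pi.star_apply, norm_star, Finset.mul_sum]
      have h2 : ‖(M *ᵥ x) i‖ ≤ ∑ j, √(M i i).re * √(M j j).re * ‖x j‖ := by
        rw [Matrix.mulVec, dotProduct]
        refine (norm_sum_le _ _).trans (Finset.sum_le_sum fun j _ => ?_)
        rw [norm_mul]
        exact mul_le_mul_of_nonneg_right (entry_sqrt hM i j) (norm_nonneg _)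
      refine (mul_le_mul_of_nonneg_left h2 (norm_nonneg _)).trans (le_of_eq ?_)
      rw [Finset.mul_sum]
      exact Finset.sum_congr rfl fun j _ => by ring
    refine (Finset.sum_le_sum h1).trans (le_of_eq ?_)
    rw [← Finset.sum_mul]
    ring
  have e3 : (∑ i, √(M i i).re * ‖x i‖) ^ 2 ≤ M.trace.re * ∑ i, ‖x i‖ ^ 2 := by
    have h1 := Finset.sum_mul_sq_le_sq_mul_sq (Finset.univ : Finset (Fin n))
      (fun i => √(M i i).re) (fun i => ‖x i‖)
    have h2 : ∑ i, √(M i i).re ^ 2 = M.trace.re := by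
      rw [Matrix.trace, Complex.re_sum]
      exact Finset.sum_congr rfl fun i _ => by rw [Real.sq_sqrt (hd i), Matrix.diag_apply]
    rwa [h2] at h1
  have e4 : (star x ⬝ᵥ (M *ᵥ x)).re ≤ (∑ i, √(M i i).re * ‖x i‖) ^ 2 :=
    (Complex.re_le_norm _).trans e2
  rw [e1, Complex.sub_re, Complex.ofReal_re]
  linarith

open scoped MatrixOrder in
theorem tr_inv {Q h : Matrix (Fin n) (Fin n) ℂ} (hQ : Q.PosDef) (hh : h.PosDef) :
    (((Matrix.trace (Q * h⁻¹)).re : ℂ) • Q⁻¹ - h⁻¹).PosSemidef := by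
  obtain ⟨S, hS⟩ := CStarAlgebra.nonneg_iff_eq_star_mul_self.1 hQ.posSemidef.nonneg
  have hS' : Q = Sᴴ * S := hS
  have hdet : S.det ≠ 0 := by
    intro h0
    have := hQ.det_pos.ne'
    rw [hS', Matrix.det_mul, h0, mul_zero] at this
    exact this rfl
  have hu : IsUnit S.det := isUnit_iff_ne_zero.2 hdet
  have huH : IsUnit Sᴴ.det := by
    rw [Matrix.det_conjTranspose]
    exact hu.star
  have h1 : (S * h⁻¹ * Sᴴ).PosSemidef := hh.inv.posSemidef.mul_mul_conjTranspose_same S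
  have h2 : Matrix.trace (S * h⁻¹ * Sᴴ) = Matrix.trace (Q * h⁻¹) := by
    rw [Matrix.trace_mul_comm, ← Matrix.mul_assoc, ← hS']
  have h3 := (psd_trace h1).mul_mul_conjTranspose_same S⁻¹
  rw [h2] at h3
  have e : S⁻¹ * (((Matrix.trace (Q * h⁻¹)).re : ℂ) • (1 : Matrix (Fin n) (Fin n) ℂ) -
      S * h⁻¹ * Sᴴ) * (S⁻¹)ᴴ = ((Matrix.trace (Q * h⁻¹)).re : ℂ) • Q⁻¹ - h⁻¹ := by
    have e1 : (S⁻¹)ᴴ = (Sᴴ)⁻¹ := Matrix.conjTranspose_nonsing_inv S
    rw [e1, Matrix.mul_sub, Matrix.sub_mul, Matrix.mul_smul, Matrix.mul_one, Matrix.smul_mul]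
    congr 1
    · rw [hS', Matrix.mul_inv_rev]
    · calc S⁻¹ * (S * h⁻¹ * Sᴴ) * (Sᴴ)⁻¹ = (S⁻¹ * S) * h⁻¹ * (Sᴴ * (Sᴴ)⁻¹) := by
            simp only [Matrix.mul_assoc]
        _ = h⁻¹ := by
            rw [Matrix.nonsing_inv_mul _ hu, Matrix.mul_nonsing_inv _ huH, Matrix.one_mul,
              Matrix.mul_one]
  rw [e] at h3
  exact h3

theorem inv_anti {A B : Matrix (Fin n) (Fin n) ℂ} (hA : A.PosDef) (hB : B.PosDef)
    (h : (B - A).PosSemidef) : (A⁻¹ - B⁻¹).PosSemidef := by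
  have hu : IsUnit A.det := isUnit_iff_ne_zero.2 hA.det_pos.ne'
  have hv : IsUnit B.det := isUnit_iff_ne_zero.2 hB.det_pos.ne'
  have hi : (B⁻¹)ᴴ = B⁻¹ := hB.inv.isHermitian.eq
  have h1 := h.mul_mul_conjTranspose_same B⁻¹
  have h2 := hA.inv.posSemidef.mul_mul_conjTranspose_same (B⁻¹ * (B - A))
  rw [hi] at h1
  rw [Matrix.conjTranspose_mul, hi, h.isHermitian.eq] at h2
  have h3 := h1.add h2
  have e : B⁻¹ * (B - A) * B⁻¹ + B⁻¹ * (B - A) * A⁻¹ * ((B - A) * B⁻¹) = A⁻¹ - B⁻¹ := by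
    have e1 : B⁻¹ * (B - A) = 1 - B⁻¹ * A := by
      rw [Matrix.mul_sub, Matrix.nonsing_inv_mul _ hv]
    have e2 : (B - A) * B⁻¹ = 1 - A * B⁻¹ := by
      rw [Matrix.sub_mul, Matrix.mul_nonsing_inv _ hv]
    have e3 : B⁻¹ * (B - A) * A⁻¹ = A⁻¹ - B⁻¹ := by
      rw [e1, Matrix.sub_mul, Matrix.one_mul, Matrix.mul_assoc, Matrix.mul_nonsing_inv _ hu,
        Matrix.mul_one]
    rw [e3, e2, e1, Matrix.sub_mul, Matrix.one_mul, Matrix.mul_sub, Matrix.mul_one,
      ← Matrix.mul_assoc, Matrix.sub_mul, Matrix.nonsing_inv_mul _ hu]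
    noncomm_ring
  rw [e] at h3
  exact h3

theorem smul_real' {A : Matrix (Fin n) (Fin n) ℂ} (hA : A.PosDef) {c : ℝ}
    (hc : 0 < c) : ((c : ℂ) • A).PosDef := by
  have h := hA.smul hc
  have e : (c : ℂ) • A = c • A := by
    ext i j
    simp [Matrix.smul_apply]
  rw [e]
  exact h

theorem smul_inv {A : Matrix (Fin n) (Fin n) ℂ} (hA : A.PosDef) {c : ℝ} (hc : c ≠ 0) :
    ((c : ℂ) • A)⁻¹ = ((c⁻¹ : ℝ) : ℂ) • A⁻¹ := by
  have hu : IsUnit A.det := isUnit_iff_ne_zero.2 hA.det_pos.ne'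
  refine Matrix.inv_eq_right_inv ?_
  rw [Matrix.smul_mul, Matrix.mul_smul, Matrix.mul_nonsing_inv _ hu, smul_smul,
    ← Complex.ofReal_mul, mul_inv_cancel₀ hc, Complex.ofReal_one, one_smul]

theorem tr_cmp {Q H h : Matrix (Fin n) (Fin n) ℂ} (hQ : Q.PosDef) (hH : H.PosDef)
    (hh : h.PosDef) {C : ℝ} (hC : 0 < C) (hle : ((C : ℂ) • h - H).PosSemidef) :
    (Matrix.trace (Q * h⁻¹)).re ≤ C * (Matrix.trace (Q * H⁻¹)).re := by
  have h1 := trace_nonneg hQ.posSemidef (inv_anti hH (smul_real' hh hC) hle)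
  rw [smul_inv hh hC.ne', Matrix.mul_sub, Matrix.trace_sub, Matrix.mul_smul, Matrix.trace_smul,
    Complex.sub_re, smul_eq_mul, Complex.re_ofReal_mul] at h1
  have h2 : C * (C⁻¹ * (Matrix.trace (Q * h⁻¹)).re) = (Matrix.trace (Q * h⁻¹)).re := by
    rw [← mul_assoc, mul_inv_cancel₀ hC.ne', one_mul]
  have h3 := mul_le_mul_of_nonneg_left (sub_nonneg.1 h1) hC.le
  linarith

theorem crvP_right (H : Cn n → Matrix (Fin n) (Fin n) ℂ) (X Y Y' : Matrix (Fin n) (Fin n) ℂ)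
    (c : ℂ) (x : Cn n) : crvP H X (c • Y - Y') x = c * crvP H X Y x - crvP H X Y' x := by
  unfold crvP
  simp only [Finset.mul_sum, ← Finset.sum_sub_distrib]
  refine Finset.sum_congr rfl fun i _ => Finset.sum_congr rfl fun j _ =>
    Finset.sum_congr rfl fun k _ => Finset.sum_congr rfl fun l _ => ?_
  rw [Matrix.sub_apply, Matrix.smul_apply, smul_eq_mul]
  ring

theorem crvP_left (H : Cn n → Matrix (Fin n) (Fin n) ℂ) (X Y : Matrix (Fin n) (Fin n) ℂ)
    (c : ℂ) (x : Cn n) : crvP H (c • X) Y x = c * crvP H X Y x := by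
  unfold crvP
  simp only [Finset.mul_sum]
  refine Finset.sum_congr rfl fun i _ => Finset.sum_congr rfl fun j _ =>
    Finset.sum_congr rfl fun k _ => Finset.sum_congr rfl fun l _ => ?_
  rw [Matrix.smul_apply, smul_eq_mul]
  ring

theorem crvP_bound {H : Cn n → Matrix (Fin n) (Fin n) ℂ} {X Y : Matrix (Fin n) (Fin n) ℂ}
    {x : Cn n} {a b c : ℝ} (ha0 : 0 ≤ a) (hb0 : 0 ≤ b) (ha : ∀ i j, ‖X i j‖ ≤ a)
    (hb : ∀ i j, ‖Y i j‖ ≤ b) (hc : ∀ i j k l, ‖crv H x i j k l‖ ≤ c) :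
    ‖crvP H X Y x‖ ≤ n * (n * (n * (n * (a * b * c)))) := by
  have h0 : ∀ (f : Fin n → ℂ) (t : ℝ), (∀ i, ‖f i‖ ≤ t) → ‖∑ i, f i‖ ≤ n * t := by
    intro f t hf
    refine (norm_sum_le_of_le _ fun i _ => hf i).trans (le_of_eq ?_)
    rw [Finset.sum_const, Finset.card_univ, Fintype.card_fin, nsmul_eq_mul]
  unfold crvP
  refine h0 _ _ fun i => h0 _ _ fun j => h0 _ _ fun k => h0 _ _ fun l => ?_
  rw [norm_mul, norm_mul]
  exact mul_le_mul (mul_le_mul (ha j i) (hb l k) (norm_nonneg _) ha0) (hc i j k l)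
    (norm_nonneg _) (mul_nonneg ha0 hb0)

theorem mul_bound {X Y : Matrix (Fin n) (Fin n) ℂ} {a b : ℝ} (ha0 : 0 ≤ a)
    (ha : ∀ i j, ‖X i j‖ ≤ a) (hb : ∀ i j, ‖Y i j‖ ≤ b) (i j : Fin n) :
    ‖(X * Y) i j‖ ≤ n * (a * b) := by
  rw [Matrix.mul_apply]
  have h1 : ∀ k ∈ (Finset.univ : Finset (Fin n)), ‖X i k * Y k j‖ ≤ a * b := by
    intro k _
    rw [norm_mul]
    exact mul_le_mul (ha i k) (hb k j) (norm_nonneg _) ha0
  refine (norm_sum_le_of_le _ h1).trans (le_of_eq ?_)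
  rw [Finset.sum_const, Finset.card_univ, Fintype.card_fin, nsmul_eq_mul]

end linalg

/-! ## The abstract limit -/

theorem tend {n : ℕ} {C : Set (Cn n)} (hCc : IsCompact C) {D f g a : ℕ → Cn n → ℝ}
    {E K B : ℝ} (hDc : ∀ j, ContinuousOn (D j) C) (hgc : ∀ j, ContinuousOn (g j) C)
    (hac : ∀ j, ContinuousOn (a j) C) (hD0 : ∀ j, ∀ x ∈ C, 0 ≤ D j x)
    (hD1 : ∀ j, ∀ x ∈ C, D j x ≤ E) (hf0 : ∀ j, ∀ x ∈ C, 0 ≤ f j x)
    (hg0 : ∀ j, ∀ x ∈ C, 0 ≤ g j x) (ha0 : ∀ j, ∀ x ∈ C, 0 ≤ a j x)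
    (hE : 0 ≤ E) (hfga : ∀ j, ∀ x ∈ C, f j x ^ 2 ≤ K * g j x * a j x)
    (hB : ∀ j, ∫ x in C, g j x ≤ B)
    (hav : Tendsto (fun j => ∫ x in C, D j x * a j x) atTop (𝓝 0)) :
    Tendsto (fun j => ∫ x in C, D j x * f j x) atTop (𝓝 0) := by
  have main : ∀ r : ℝ, 0 < r → ∀ j, ∫ x in C, D j x * f j x ≤
      r / 2 * |K| * E * B + (2 * r)⁻¹ * ∫ x in C, D j x * a j x := by
    intro r hr j
    have i1 : IntegrableOn (g j) C := (hgc j).integrableOn_compact hCc
    have i2 : IntegrableOn (fun x => D j x * a j x) C :=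
      ((hDc j).mul (hac j)).integrableOn_compact hCc
    have h1 : ∫ x in C, D j x * f j x ≤
        ∫ x in C, (r / 2 * |K| * E * g j x + (2 * r)⁻¹ * (D j x * a j x)) := by
      refine integral_mono_of_nonneg ?_ ((i1.const_mul _).add (i2.const_mul _)) ?_
      · refine (ae_restrict_iff' hCc.measurableSet).2 (ae_of_all _ fun x hx => ?_)
        exact mul_nonneg (hD0 j x hx) (hf0 j x hx)
      · refine (ae_restrict_iff' hCc.measurableSet).2 (ae_of_all _ fun x hx => ?_)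
        exact ptw (hD0 j x hx) (hf0 j x hx) (hg0 j x hx) (ha0 j x hx) (hD1 j x hx) hr
          (hfga j x hx)
    refine h1.trans ?_
    rw [integral_add (i1.const_mul _) (i2.const_mul _), integral_const_mul, integral_const_mul]
    have h3 : 0 ≤ r / 2 * |K| * E := by positivity
    have h4 := mul_le_mul_of_nonneg_left (hB j) h3
    linarith
  have hnn : ∀ j, 0 ≤ ∫ x in C, D j x * f j x := fun j =>
    setIntegral_nonneg hCc.measurableSet fun x hx => mul_nonneg (hD0 j x hx) (hf0 j x hx)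
  rw [Metric.tendsto_atTop]
  intro δ hδ
  set M := |K| * E * |B| + 1 with hM
  have hM0 : 0 < M := by positivity
  have hr : 0 < δ / M := by positivity
  obtain ⟨N, hN⟩ := Metric.tendsto_atTop.1 hav (δ / M * δ) (by positivity)
  refine ⟨N, fun j hj => ?_⟩
  have h1 := main (δ / M) hr j
  have h2 := hN j hj
  rw [Real.dist_eq, sub_zero] at h2 ⊢
  rw [abs_of_nonneg (hnn j)]
  have h3 := lt_of_le_of_lt (le_abs_self _) h2
  have h4 : δ / M / 2 * |K| * E * B ≤ δ / 2 := by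
    have h5 : |K| * E * B ≤ M := by
      have : |K| * E * B ≤ |K| * E * |B| :=
        mul_le_mul_of_nonneg_left (le_abs_self B) (by positivity)
      linarith
    calc δ / M / 2 * |K| * E * B = (δ / M / 2) * (|K| * E * B) := by ring
      _ ≤ (δ / M / 2) * M := mul_le_mul_of_nonneg_left h5 (by positivity)
      _ = δ / 2 := by field_simp
  have h6 : (2 * (δ / M))⁻¹ * ∫ x in C, D j x * a j x < δ / 2 := by
    calc (2 * (δ / M))⁻¹ * ∫ x in C, D j x * a j x <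
          (2 * (δ / M))⁻¹ * (δ / M * δ) := mul_lt_mul_of_pos_left h3 (by positivity)
      _ = δ / 2 := by field_simp
  linarith

/-- The packet GDZ. -/
theorem gdz (hCMPG : S_CMPG.{u}) (hGDB : S_GDB.{u}) (hQPD : S_QPD.{u}) (hAVC : S_AVC.{u})
    (hINVG : S_INVG.{u}) (hGRBC : S_GRBC) (hINVK : S_INVK.{u}) : S_GDZ.{u} := by
  intro n T G _ R H h hdat κ hκ hex k p hp hV ε τ Q hseq C hC hCc
  have hH := hdat.ket
  have hTo : IsOpen T := hH.et.isOpen
  have hher := hdat.her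
  have hQer : ∀ j, HerT T R (Q j) := fun j =>
    ⟨(hseq.tke j).ket.posDef, (hseq.tke j).ket.smooth, (hseq.tke j).ket.inv⟩
  obtain ⟨c₀, C₀, hcmp⟩ := hCMPG T R H h hH hher
  obtain ⟨-, hC₀, hcm⟩ := hcmp
  obtain ⟨K, hK, hQ1, hQ2⟩ := hQPD T R H hH κ hκ hex k p hp hV
  obtain ⟨B, hB⟩ := hQ2 C hC hCc
  obtain ⟨K', hK'0, hK'⟩ := hGDB T R h hher C hC hCc
  have hε : ∀ j, 0 < ε j := fun j => (hseq.eps j).1
  have hε1 : ∀ j, ε j ≤ 1 := fun j => (hseq.eps j).2
  have hT := hseq.tke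
  have hd0 : ∀ j, ∀ x ∈ T, 0 < dens k (ε j) H (Q j) x := fun j =>
    (hQ1 (ε j) (Q j) (hε j) (hε1 j) (hT j)).2
  have hd1 : ∀ j, ∀ x ∈ T, dens k (ε j) H (Q j) x ≤ Real.exp K := by
    intro j x hx
    have h1 := (hQ1 (ε j) (Q j) (hε j) (hε1 j) (hT j)).1.le x hx
    rw [← Real.exp_log (hd0 j x hx)]
    exact Real.exp_le_exp.2 h1
  have hinv := fun j => hINVG T R hH.et h (Q j) (τ j) (hseq.tau j) hher (hQer j)
  -- positivity of the error terms
  have hE1 : ∀ j, ∀ x ∈ T, 0 ≤ Er1 (τ j) h (Q j) x := by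
    intro j x hx
    obtain ⟨K₂, -, hK₂⟩ := hGDB T R h hher {x} (singleton_subset_iff.2 hx) isCompact_singleton
    exact (hK₂ (τ j) (Q j) (hseq.tau j) (hT j).ket x rfl).2.1
  have hgr := hGRBC T hTo h hher.posDef hher.smooth hdat.gsn
  have hmpd : ∀ j, ∀ x ∈ T, (mS (τ j) h (Q j) x).PosDef := fun j => (hinv j).1.posDef
  have hE2 : ∀ j, ∀ x ∈ T, 0 ≤ Er2 (τ j) h (Q j) x := by
    intro j x hx
    have h1 := (hgr.2 x hx).1 _ _ (hmpd j x hx).inv.posSemidef
      ((hT j).ket.posDef x hx).inv.posSemidef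
    unfold Er2
    have h2 := (hseq.tau j).le
    nlinarith
  have hav1 := hAVC T R H hH κ hκ hex k p hp hV ε Q hε hseq.lim hT
    (fun j => Er1 (τ j) h (Q j)) (fun j => (hinv j).2.2.2.2.1) hE1
    (fun j γ x y hr => ((hinv j).2.2.2.2.2.2.1 γ x y hr).1) hseq.a3 C hC hCc
  have hav2 := hAVC T R H hH κ hκ hex k p hp hV ε Q hε hseq.lim hT
    (fun j => Er2 (τ j) h (Q j)) (fun j => (hinv j).2.2.2.2.2.1) hE2
    (fun j γ x y hr => ((hinv j).2.2.2.2.2.2.1 γ x y hr).2.1) hseq.a4 C hC hCc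
  have hHd : ∀ x ∈ T, (H x).det ≠ 0 := fun x hx => (hH.posDef x hx).det_pos.ne'
  have hhd : ∀ x ∈ T, (h x).det ≠ 0 := fun x hx => (hher.posDef x hx).det_pos.ne'
  have hHc : ContinuousOn H T := contM hH.smooth
  have hhc : ContinuousOn h T := contM hher.smooth
  -- continuity of the densities
  have hDc : ∀ j, ContinuousOn (dens k (ε j) H (Q j)) T := by
    intro j
    have h1 : ContinuousOn (fun x => (Q j x).det.re) T :=
      Complex.continuous_re.comp_continuousOn (cont_det (contM (hT j).ket.smooth))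
    have h2 : ContinuousOn (fun x => ε j ^ k * (H x).det.re) T :=
      continuousOn_const.mul (Complex.continuous_re.comp_continuousOn (cont_det hHc))
    refine h1.div h2 fun x hx => ?_
    have h3 : 0 < (H x).det.re := (Complex.pos_iff.1 (hH.posDef x hx).det_pos).1
    have h4 := hε j
    positivity
  have hgc : ∀ j, ContinuousOn (fun x => (Matrix.trace (Q j x * (h x)⁻¹)).re) T := fun j =>
    cont_trace (contM (hT j).ket.smooth) hhc hhd
  have hgc' : ∀ j, ContinuousOn (fun x => (Matrix.trace (Q j x * (H x)⁻¹)).re) T := fun j =>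
    cont_trace (contM (hT j).ket.smooth) hHc hHd
  have hg0 : ∀ j, ∀ x ∈ T, 0 ≤ (Matrix.trace (Q j x * (h x)⁻¹)).re := fun j x hx =>
    trace_nonneg ((hT j).ket.posDef x hx).posSemidef (hher.posDef x hx).inv.posSemidef
  have hgB : ∀ j, ∫ x in C, (Matrix.trace (Q j x * (h x)⁻¹)).re ≤ C₀ * B := by
    intro j
    have h1 : ∫ x in C, (Matrix.trace (Q j x * (h x)⁻¹)).re ≤
        ∫ x in C, C₀ * (Matrix.trace (Q j x * (H x)⁻¹)).re := by
      refine setIntegral_mono_on (((hgc j).mono hC).integrableOn_compact hCc)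
        ((((hgc' j).mono hC).integrableOn_compact hCc).const_mul _) hCc.measurableSet
        fun x hx => ?_
      exact tr_cmp ((hT j).ket.posDef x (hC hx)) (hH.posDef x (hC hx)) (hher.posDef x (hC hx))
        hC₀ (hcm x (hC hx)).2
    rw [integral_const_mul] at h1
    exact h1.trans (mul_le_mul_of_nonneg_left (hB (ε j) (Q j) (hε j) (hε1 j) (hT j)) hC₀.le)
  refine ⟨fun l a c => ?_, ?_⟩
  · refine tend (g := fun j x => (Matrix.trace (Q j x * (h x)⁻¹)).re)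
      (a := fun j => Er1 (τ j) h (Q j)) (E := Real.exp K) (K := K') (B := C₀ * B) hCc
      (fun j => (hDc j).mono hC) (fun j => (hgc j).mono hC)
      (fun j => (hinv j).2.2.2.2.1.mono hC) (fun j x hx => (hd0 j x (hC hx)).le)
      (fun j x hx => hd1 j x (hC hx)) (fun j x hx => norm_nonneg _)
      (fun j x hx => hg0 j x (hC hx)) (fun j x hx => hE1 j x (hC hx)) (Real.exp_pos K).le
      (fun j x hx => ?_) hgB hav1
    have h2 := (hK' (τ j) (Q j) (hseq.tau j) (hT j).ket x hx).2.2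
    have h3 : ‖cdb l (fun y => YS (τ j) h (Q j) y a c) x‖ ^ 2 ≤
        ∑ l, ∑ a, ∑ c, ‖cdb l (fun y => YS (τ j) h (Q j) y a c) x‖ ^ 2 := by
      refine le_trans ?_ (Finset.single_le_sum (fun l' _ => ?_) (Finset.mem_univ l))
      · refine le_trans ?_ (Finset.single_le_sum (fun a' _ => ?_) (Finset.mem_univ a))
        · exact Finset.single_le_sum (f := fun c =>
            ‖cdb l (fun y => YS (τ j) h (Q j) y a c) x‖ ^ 2) (fun c' _ => sq_nonneg _)
            (Finset.mem_univ c)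
        · exact Finset.sum_nonneg fun _ _ => sq_nonneg _
      · exact Finset.sum_nonneg fun _ _ => Finset.sum_nonneg fun _ _ => sq_nonneg _
    exact h3.trans h2
  · -- bounds on `C`
    have hhi : ∀ i j, ContinuousOn (fun x => (h x)⁻¹ i j) C := fun i j =>
      ((continuous_apply_apply i j).comp_continuousOn (cont_inv hhc hhd)).mono hC
    obtain ⟨b, hb0, hb⟩ : ∃ b : ℝ, 0 ≤ b ∧ ∀ x ∈ C, ∀ i j, ‖(h x)⁻¹ i j‖ ≤ b := by
      have h1 : ∀ i j, ∃ t : ℝ, ∀ x ∈ C, ‖(h x)⁻¹ i j‖ ≤ t := fun i j =>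
        hCc.exists_bound_of_continuousOn (hhi i j)
      choose t ht using h1
      refine ⟨∑ i, ∑ j, |t i j|, Finset.sum_nonneg fun _ _ => Finset.sum_nonneg fun _ _ =>
        abs_nonneg _, fun x hx i j => ?_⟩
      have h3 : |t i j| ≤ ∑ j, |t i j| :=
        Finset.single_le_sum (f := fun j => |t i j|) (fun _ _ => abs_nonneg _)
          (Finset.mem_univ j)
      have h4 : ∑ j, |t i j| ≤ ∑ i, ∑ j, |t i j| :=
        Finset.single_le_sum (f := fun i => ∑ j, |t i j|)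
          (fun _ _ => Finset.sum_nonneg fun _ _ => abs_nonneg _) (Finset.mem_univ i)
      exact (ht i j x hx).trans ((le_abs_self _).trans (h3.trans h4))
    have hcc := (hINVK T R hH.et h h hher hher).2.2.2
    obtain ⟨c, hc⟩ : ∃ c : ℝ, ∀ x ∈ C, ∀ i j k l, ‖crv h x i j k l‖ ≤ c := by
      have h1 : ∀ q : Fin n × Fin n × Fin n × Fin n, ∃ t : ℝ, ∀ x ∈ C,
          ‖crv h x q.1 q.2.1 q.2.2.1 q.2.2.2‖ ≤ t := fun q =>
        hCc.exists_bound_of_continuousOn ((hcc _ _ _ _).mono hC)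
      choose t ht using h1
      refine ⟨∑ q, |t q|, fun x hx i j k l => ?_⟩
      have h3 : |t (i, j, k, l)| ≤ ∑ q, |t q| :=
        Finset.single_le_sum (f := fun q => |t q|) (fun _ _ => abs_nonneg _)
          (Finset.mem_univ (i, j, k, l))
      exact (ht (i, j, k, l) x hx).trans ((le_abs_self _).trans h3)
    set X : ℕ → Cn n → Matrix (Fin n) (Fin n) ℂ := fun j x => (h x)⁻¹ * YS (τ j) h (Q j) x
      with hX
    have hXe : ∀ j, ∀ x ∈ T, X j x = (τ j : ℂ) • (mS (τ j) h (Q j) x)⁻¹ := by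
      intro j x hx
      have hu : IsUnit (h x).det := isUnit_iff_ne_zero.2 (hhd x hx)
      simp only [hX, YS]
      rw [Matrix.mul_smul, ← Matrix.mul_assoc, Matrix.nonsing_inv_mul _ hu, Matrix.one_mul]
    have hXp : ∀ j, ∀ x ∈ T, (X j x).PosSemidef := by
      intro j x hx
      rw [hXe j x hx]
      exact (smul_real' (hmpd j x hx).inv (hseq.tau j)).posSemidef
    set Bf : ℝ := n * (n * (n * (n * (n * (b * K') * b * c)))) with hBf
    have hf0 : ∀ j, ∀ x ∈ C, 0 ≤ -(crvP h (X j x) (h x)⁻¹ x).re := by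
      intro j x hx
      have := (hgr.2 x (hC hx)).1 _ _ (hXp j x (hC hx)) (hher.posDef x (hC hx)).inv.posSemidef
      linarith
    have hf1 : ∀ j, ∀ x ∈ C, -(crvP h (X j x) (h x)⁻¹ x).re ≤ Bf := by
      intro j x hx
      have h1 : ∀ i l, ‖X j x i l‖ ≤ n * (b * K') := fun i l =>
        mul_bound hb0 (hb x hx) (hK' (τ j) (Q j) (hseq.tau j) (hT j).ket x hx).1 i l
      have h2 := crvP_bound (H := h) (x := x) (X := X j x) (Y := (h x)⁻¹) (by positivity) hb0 h1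
        (hb x hx) (hc x hx)
      have h3 := (Complex.abs_re_le_norm (crvP h (X j x) (h x)⁻¹ x)).trans h2
      exact (neg_le_abs _).trans h3
    have hf2 : ∀ j, ∀ x ∈ C, -(crvP h (X j x) (h x)⁻¹ x).re ≤
        (Matrix.trace (Q j x * (h x)⁻¹)).re * Er2 (τ j) h (Q j) x := by
      intro j x hx
      have h1 := (hgr.2 x (hC hx)).1 _ _ (hXp j x (hC hx))
        (tr_inv ((hT j).ket.posDef x (hC hx)) (hher.posDef x (hC hx)))
      rw [crvP_right, Complex.sub_re, Complex.re_ofReal_mul] at h1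
      have h2 : Er2 (τ j) h (Q j) x = -(crvP h (X j x) (Q j x)⁻¹ x).re := by
        rw [hXe j x (hC hx), crvP_left, Complex.re_ofReal_mul]
        unfold Er2
        ring
      rw [h2]
      linarith
    refine tend (f := fun j x => -(crvP h (X j x) (h x)⁻¹ x).re)
      (g := fun j x => (Matrix.trace (Q j x * (h x)⁻¹)).re)
      (a := fun j => Er2 (τ j) h (Q j)) (E := Real.exp K) (K := Bf) (B := C₀ * B) hCc
      (fun j => (hDc j).mono hC) (fun j => (hgc j).mono hC)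
      (fun j => (hinv j).2.2.2.2.2.1.mono hC) (fun j x hx => (hd0 j x (hC hx)).le)
      (fun j x hx => hd1 j x (hC hx)) hf0
      (fun j x hx => hg0 j x (hC hx)) (fun j x hx => hE2 j x (hC hx)) (Real.exp_pos K).le
      (fun j x hx => ?_) hgB hav2
    have h1 := hf0 j x hx
    have h2 := hf1 j x hx
    have h3 := hf2 j x hx
    have h4 : 0 ≤ (Matrix.trace (Q j x * (h x)⁻¹)).re * Er2 (τ j) h (Q j) x :=
      mul_nonneg (hg0 j x (hC hx)) (hE2 j x (hC hx))
    calc (-(crvP h (X j x) (h x)⁻¹ x).re) ^ 2 =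
        (-(crvP h (X j x) (h x)⁻¹ x).re) * (-(crvP h (X j x) (h x)⁻¹ x).re) := by ring
      _ ≤ Bf * ((Matrix.trace (Q j x * (h x)⁻¹)).re * Er2 (τ j) h (Q j) x) :=
        mul_le_mul h2 h3 h1 (h1.trans h2)
      _ = Bf * (Matrix.trace (Q j x * (h x)⁻¹)).re * Er2 (τ j) h (Q j) x := by ring

end Pool.Agent.Helper94.GS
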